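import Pool.Agent.H37.CNR.Stmts

/-!
# Row `WP3` of the board `cnr` (helper66)
-/

set_option autoImplicit false

namespace Pool.CND

namespace WP3

section

variable {k L : Type} [Field k] [Field L] [Algebra k L]

/-- the translate of a place -/
def tr (P : Place k L) (σ : L ≃ₐ[k] L) : Place k L where
  ord x := P.ord (σ x)
  ord_mul x y hx hy := by
    rw [map_mul]
    exact P.ord_mul _ _ (by simpa using hx) (by simpa using hy)
  ord_add x y hx hy hs := by
    rw [map_add]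
    refine P.ord_add _ _ (by simpa using hx) (by simpa using hy) ?_
    intro h
    rw [← map_add, map_eq_zero_iff σ σ.injective] at h
    exact hs h
  ord_surj := by
    obtain ⟨x, hx, h1⟩ := P.ord_surj
    refine ⟨σ.symm x, by simpa using hx, ?_⟩
    rw [AlgEquiv.apply_symm_apply]
    exact h1
  ord_const c hc := by
    rw [AlgEquiv.commutes]
    exact P.ord_const c hc
  residue x hx h0 := by
    obtain ⟨c, hc⟩ := P.residue (σ x) (by simpa using hx) h0
    refine ⟨c, ?_⟩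
    rcases hc with hc | hc
    · left
      apply σ.injective
      rw [hc, AlgEquiv.commutes]
    · right
      rw [map_sub, AlgEquiv.commutes]
      exact hc

theorem ram0_iff {G : Type} [Group G] (P : Place k L) (ρ : G →* (L ≃ₐ[k] L)) (g : G) :
    g ∈ ram P ρ 0 ↔ Fixes P (ρ g) := by
  constructor
  · exact fun h => h.1
  · intro h
    refine ⟨h, fun u _ h1 => ?_⟩
    by_cases e : ρ g u = u
    · exact Or.inl e
    · right
      have h2 : P.Ge u 1 := by
        have h3 := P.ge_ord u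
        rw [h1] at h3
        exact h3
      have h4 := (P.ge_iff (sub_ne_zero.2 e) 1).1 (P.ge_sub (h.ge h2) h2)
      rw [Nat.cast_zero, zero_add]
      exact h4

/-- `ram 1` is normalised by `ram 0` -/
theorem ram1_conj {G : Type} [Group G] (P : Place k L) (ρ : G →* (L ≃ₐ[k] L)) {i g : G}
    (hi : Fixes P (ρ i)) (hg : g ∈ ram P ρ 1) : i * g * i⁻¹ ∈ ram P ρ 1 := by
  have hi' : Fixes P (ρ i⁻¹) := by
    rw [map_inv]
    exact hi.inv
  refine ⟨?_, fun u hu hu1 => ?_⟩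
  · rw [map_mul, map_mul]
    exact (hi.mul hg.1).mul hi'
  · have h1 : ρ i⁻¹ u ≠ 0 := by simpa using hu
    have h2 : P.ord (ρ i⁻¹ u) = 1 := by rw [hi' u hu, hu1]
    have h3 : ρ i (ρ i⁻¹ u) = u := by
      rw [← AlgEquiv.mul_apply, ← map_mul, mul_inv_cancel, map_one]
      rfl
    have h4 : ρ (i * g * i⁻¹) u = ρ i (ρ g (ρ i⁻¹ u)) := by
      rw [map_mul, map_mul]
      rfl
    rcases hg.2 _ h1 h2 with h5 | h5
    · left
      rw [h4, h5, h3]
    · right
      have h6 : ρ (i * g * i⁻¹) u - u = ρ i (ρ g (ρ i⁻¹ u) - ρ i⁻¹ u) := by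
        rw [map_sub, h3, h4]
      by_cases h7 : ρ g (ρ i⁻¹ u) - ρ i⁻¹ u = 0
      · rw [h6, h7, map_zero]
        rw [h7] at h5
        exact h5
      · rw [h6, hi _ h7]
        exact h5

end

/-- in a group `I` with a normal `p`-subgroup `W` of index prime to `p` -/
theorem pow_mem {G : Type} [Group G] [Finite G] {W I : Subgroup G} (hWI : W ≤ I)
    (hn : ∀ i ∈ I, ∀ w ∈ W, i * w * i⁻¹ ∈ W) {m : ℕ} (hm : Nat.card I = m * Nat.card W) {g : G}
    (hg : g ∈ I) : g ^ m ∈ W := by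
  have hN : (W.subgroupOf I).Normal := by
    constructor
    intro w hw i
    rw [Subgroup.mem_subgroupOf] at hw ⊢
    exact hn i i.2 w hw
  have h1 := Subgroup.pow_index_mem (W.subgroupOf I) ⟨g, hg⟩
  have h2 : (W.subgroupOf I).index = m := by
    have h3 := Subgroup.card_mul_index (W.subgroupOf I)
    have h4 : Nat.card (W.subgroupOf I) = Nat.card W :=
      Nat.card_congr (Subgroup.subgroupOfEquivOfLe hWI).toEquiv
    rw [h4, hm, mul_comm m] at h3
    exact Nat.eq_of_mul_eq_mul_left Nat.card_pos h3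
  rw [h2, Subgroup.mem_subgroupOf] at h1
  exact h1

end WP3

open WP3

theorem wp3_thm (hTRV : S_TRV) (hWLD : S_WLD) : S_WP3 := by
  intro p k L L' G H _ _ _ _ _ _ _ _ ρ ρ' j π P P' e' A I' I hp hch hX hA hI' hI
  have hfinH : Finite H := Finite.of_surjective π hX.sur
  have he : (e' : ℤ) ≠ 0 := by exact_mod_cast (Nat.one_le_iff_ne_zero.1 hX.pos)
  have hj : ∀ x : L, x ≠ 0 → j x ≠ 0 := fun x hx h => hx (by
    rw [← map_zero j] at h
    exact j.injective h)
  have hdown : ∀ g : G, Fixes P' (ρ' g) → Fixes P (ρ (π g)) := by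
    intro g hg x hx
    have h1 : ρ (π g) x ≠ 0 := by simpa using hx
    have h2 := hX.ord _ h1
    rw [← hX.act, hg _ (hj x hx), ← hX.ord x hx] at h2
    exact mul_left_cancel₀ he h2
  have hup : ∀ h : H, Fixes P (ρ h) → ∃ g : G, Fixes P' (ρ' g) ∧ π g = h := by
    intro h hh
    obtain ⟨g₀, hg₀⟩ := hX.sur h
    obtain ⟨c, hc, h1⟩ := hTRV k L' G ρ' π.ker P' (tr P' (ρ' g₀)) (by
      intro z hz hzc h0
      obtain ⟨x, rfl⟩ := hX.fix z (fun g hg => hzc g hg)
      have hx : x ≠ 0 := fun h0 => hz (by rw [h0, map_zero])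
      have hx' : ρ h x ≠ 0 := by simpa using hx
      change P'.ord (ρ' g₀ (j x)) = 0
      rw [hX.act, hg₀, ← hX.ord _ hx', hh x hx, hX.ord x hx]
      exact h0)
    refine ⟨g₀ * c⁻¹, ?_, ?_⟩
    · intro w hw
      have hw' : ρ' c⁻¹ w ≠ 0 := by simpa using hw
      have h2 : P'.ord (ρ' g₀ (ρ' c⁻¹ w)) = P'.ord (ρ' c (ρ' c⁻¹ w)) := h1 _ hw'
      have h3 : ρ' c (ρ' c⁻¹ w) = w := by
        rw [← AlgEquiv.mul_apply, ← map_mul, mul_inv_cancel, map_one]
        rfl
      rw [h3] at h2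
      rw [map_mul]
      exact h2
    · rw [map_mul, map_inv, (MonoidHom.mem_ker).1 hc, inv_one, mul_one, hg₀]
  obtain ⟨W', J', hW', hJ', hWJ', ⟨n', hn'⟩, m', hm', hcard'⟩ := hWLD p k L' G P' ρ' hp hch hX.inj'
  obtain ⟨W, J, hW, hJ, hWJ, ⟨n, hn⟩, m, hm, hcard⟩ := hWLD p k L H P ρ hp hch hX.inj
  have eJ' : J' = I' := SetLike.coe_injective (by rw [hJ', hI'])
  have eJ : J = I := SetLike.coe_injective (by rw [hJ, hI])
  subst eJ' eJ
  have mI' : ∀ g, g ∈ J' ↔ Fixes P' (ρ' g) := fun g => by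
    rw [← SetLike.mem_coe, hJ', ram0_iff]
  have mI : ∀ g, g ∈ J ↔ Fixes P (ρ g) := fun g => by
    rw [← SetLike.mem_coe, hJ, ram0_iff]
  have mW' : ∀ g, g ∈ W' ↔ g ∈ ram P' ρ' 1 := fun g => by rw [← SetLike.mem_coe, hW']
  have mW : ∀ g, g ∈ W ↔ g ∈ ram P ρ 1 := fun g => by rw [← SetLike.mem_coe, hW]
  have nW' : ∀ i ∈ J', ∀ w ∈ W', i * w * i⁻¹ ∈ W' := fun i hi w hw => by
    rw [mW'] at hw ⊢
    exact ram1_conj P' ρ' ((mI' i).1 hi) hw
  have nW : ∀ i ∈ J, ∀ w ∈ W, i * w * i⁻¹ ∈ W := fun i hi w hw => by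
    rw [mW] at hw ⊢
    exact ram1_conj P ρ ((mI i).1 hi) hw
  -- an exponent `= 1` modulo `p ^ a` and `= 0` modulo `m`
  have hexp : ∀ m a : ℕ, ¬ p ∣ m → ∃ s : ℕ, m * s ≡ 1 [MOD p ^ a] := by
    intro m a hm
    have h1 : Nat.Coprime m (p ^ a) :=
      Nat.Coprime.pow_right a (((Nat.Prime.coprime_iff_not_dvd hp).2 hm).symm)
    rcases Nat.eq_zero_or_pos a with ha | ha
    · subst ha
      exact ⟨0, by rw [pow_zero]; exact Nat.modEq_one⟩
    · obtain ⟨s, -, hs⟩ := Nat.exists_mul_mod_eq_one_of_coprime h1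
        (Nat.one_lt_pow ha.ne' hp.one_lt)
      refine ⟨s, ?_⟩
      rw [Nat.ModEq, hs, Nat.mod_eq_of_lt (Nat.one_lt_pow ha.ne' hp.one_lt)]
  refine ⟨fun h => ?_, fun h => ?_, ?_⟩
  · rw [ram0_iff]
    constructor
    · intro hh
      obtain ⟨g, h1, h2⟩ := hup h hh
      exact ⟨g, (ram0_iff P' ρ' g).2 h1, h2⟩
    · rintro ⟨g, h1, rfl⟩
      exact hdown g ((ram0_iff P' ρ' g).1 h1)
  · constructor
    · intro hh
      have hhW : h ∈ W := (mW h).2 hh
      obtain ⟨g, h1, h2⟩ := hup h hh.1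
      obtain ⟨s, hs⟩ := hexp m' n hm'
      refine ⟨g ^ (m' * s), ?_, ?_⟩
      · rw [← mW', pow_mul]
        exact pow_mem (WP3.pow_mem hWJ' nW' hcard' ((mI' g).2 h1)) s
      · rw [map_pow, h2]
        have h3 : orderOf h ∣ p ^ n := by
          rw [← hn]
          exact Subgroup.orderOf_dvd_natCard W hhW
        have h4 := (pow_eq_pow_iff_modEq (x := h)).2 (hs.of_dvd h3)
        rw [h4, pow_one]
    · rintro ⟨g, h1, rfl⟩
      have hgW : g ∈ W' := (mW' g).2 h1
      obtain ⟨s, hs⟩ := hexp m n' hm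
      have h3 : orderOf (π g) ∣ p ^ n' := by
        rw [← hn']
        exact (orderOf_map_dvd π g).trans (Subgroup.orderOf_dvd_natCard W' hgW)
      have h4 := (pow_eq_pow_iff_modEq (x := π g)).2 (hs.of_dvd h3)
      rw [pow_one] at h4
      rw [← h4, ← mW, pow_mul]
      exact pow_mem (WP3.pow_mem hWJ nW hcard ((mI _).2 (hdown g h1.1))) s
  · let f : J' →* H := π.comp J'.subtype
    have hr : f.range = J := by
      ext h
      constructor
      · rintro ⟨g, rfl⟩
        exact (mI _).2 (hdown g ((mI' g).1 g.2))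
      · intro hh
        obtain ⟨g, h1, h2⟩ := hup h ((mI h).1 hh)
        exact ⟨⟨g, (mI' g).2 h1⟩, h2⟩
    have hk : Nat.card f.ker = Nat.card A := by
      refine Nat.card_congr
        { toFun := fun x => ⟨x.1.1, (hA _).2 ⟨x.2, (mI' _).1 x.1.2⟩⟩
          invFun := fun a => ⟨⟨a.1, (mI' _).2 ((hA _).1 a.2).2⟩, ((hA _).1 a.2).1⟩
          left_inv := fun _ => rfl
          right_inv := fun _ => rfl }
    have h1 := Subgroup.card_eq_card_quotient_mul_card_subgroup f.ker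
    rw [Nat.card_congr (QuotientGroup.quotientKerEquivRange f).toEquiv, hr, hk] at h1
    rw [h1, mul_comm]

end Pool.CND
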